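import Pool.Agent.Helper86.TH.Stmts
import Pool.Agent.Helper86.TH.Basic4

/-! TH row P1: support and coefficients of the Pieri rule, up to normalisation. -/

namespace TH20

open TH MvPolynomial
open Finset hiding card

section
variable {K : Type*} [Field K] [CharZero K]

/-- expansion in a unitriangular family -/
theorem tri_expand {b : Module.Basis Par K (Sy K)} {I : Par → Sy K}
    (hI : ∀ μ ν, b.repr (I μ - b μ) ν ≠ 0 → card ν < card μ) (n : ℕ) :
    ∀ F : Sy K, (∀ ν, b.repr F ν ≠ 0 → card ν < n) →
      ∃ f : Par →₀ K, (∀ ν, f ν ≠ 0 → card ν < n) ∧ F = f.sum (fun ν a => a • I ν) := by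
  classical
  induction n with
  | zero =>
    intro F hF
    refine ⟨0, fun ν h => absurd rfl h, ?_⟩
    rw [Finsupp.sum_zero_index]
    apply b.repr.injective
    ext ν
    rw [map_zero, Finsupp.zero_apply]
    by_contra h
    exact absurd (hF ν h) (by omega)
  | succ n ih =>
    intro F hF
    set g : Par →₀ K := (b.repr F).filter (fun ν => card ν = n) with hg
    have hgn : ∀ ν, card ν ≠ n → g ν = 0 := by
      intro ν hν
      rw [hg, Finsupp.filter_apply, if_neg hν]
    have hrep : ∀ κ, n ≤ card κ → b.repr (g.sum (fun ν a => a • I ν)) κ = g κ := by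
      intro κ hκ
      rw [Finsupp.sum, map_sum, Finsupp.finsetSum_apply]
      have h1 : ∀ ν ∈ g.support, b.repr (g ν • I ν) κ = if ν = κ then g ν else 0 := by
        intro ν hν
        have hνn : card ν = n := by
          by_contra h
          exact (Finsupp.mem_support_iff.1 hν) (hgn ν h)
        have h2 : b.repr (I ν - b ν) κ = 0 := by
          by_contra h
          have := hI ν κ h
          omega
        rw [map_sub, Finsupp.sub_apply, b.repr_self, sub_eq_zero] at h2
        rw [map_smul, Finsupp.smul_apply, h2, smul_eq_mul, Finsupp.single_apply, mul_ite, mul_one,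
          mul_zero]
      rw [Finset.sum_congr rfl h1, Finset.sum_ite_eq']
      split_ifs with h
      · rfl
      · rw [Finsupp.notMem_support_iff] at h
        exact h.symm
    obtain ⟨f', hf', hF'⟩ := ih (F - g.sum (fun ν a => a • I ν)) (by
      intro κ hκ
      by_contra hcon
      apply hκ
      rw [map_sub, Finsupp.sub_apply, hrep κ (by omega), hg, Finsupp.filter_apply]
      split_ifs with h
      · rw [sub_self]
      · rw [sub_zero]
        by_contra h3
        have := hF κ h3
        omega)
    refine ⟨f' + g, ?_, ?_⟩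
    · intro ν hν
      by_contra hcon
      apply hν
      have h1 : f' ν = 0 := by
        by_contra h
        have := hf' ν h
        omega
      rw [Finsupp.add_apply, h1, hgn ν (by omega), add_zero]
    · rw [Finsupp.sum_add_index' (h := fun ν a => a • I ν) (fun ν => zero_smul K (I ν))
        (fun ν a a' => add_smul a a' (I ν)), ← hF', sub_add_cancel]

/-- an element which vanishes at enough points vanishes -/
theorem eq_zero_of_vanish {q t : K} {b : Module.Basis Par K (Sy K)} {I : Par → Sy K}
    (hI : ∀ μ ν, b.repr (I μ - b μ) ν ≠ 0 → card ν < card μ)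
    (hc : ∀ μ ν, ev (pt q t ν) (I μ) ≠ 0 → μ ≤ ν)
    (hd : ∀ μ, ev (pt q t μ) (I μ) ≠ 0) (n : ℕ) (F : Sy K)
    (hF : ∀ ν, b.repr F ν ≠ 0 → card ν < n)
    (hv : ∀ ν, card ν < n → ev (pt q t ν) F = 0) : F = 0 := by
  classical
  obtain ⟨f, hf, rfl⟩ := tri_expand hI n F hF
  have hf0 : ∀ m : ℕ, ∀ ν : Par, card ν = m → f ν = 0 := by
    intro m
    induction m using Nat.strong_induction_on with
    | _ m ih =>
      intro ν hν
      by_cases hνn : card ν < n
      · have h1 := hv ν hνn
        rw [Finsupp.sum, map_sum] at h1
        by_cases hs : ν ∈ f.support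
        · rw [Finset.sum_eq_single_of_mem ν hs] at h1
          · rw [map_smul, smul_eq_mul] at h1
            exact (mul_eq_zero.1 h1).resolve_right (hd ν)
          · intro κ _ hκ
            rw [map_smul, smul_eq_mul]
            by_cases h2 : ev (pt q t ν) (I κ) = 0
            · rw [h2, mul_zero]
            · have h3 := hc κ ν h2
              have h4 : card κ < card ν := by
                by_contra h5
                exact hκ (eq_of_le_card h3 (by omega))
              rw [ih (card κ) (by omega) κ rfl, zero_mul]
        · exact Finsupp.notMem_support_iff.1 hs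
      · by_contra h
        exact hνn (hf ν h)
  have : f = 0 := by
    ext ν
    exact hf0 _ ν rfl
  rw [this, Finsupp.sum_zero_index]

theorem repr_X_mul (b : Module.Basis Par K (Sy K)) (E : Sy K) (κ : Par) :
    b.repr (X 0 * E) κ = ∑ l ∈ (b.repr E).support, b.repr E l * b.repr (X 0 * b l) κ := by
  conv_lhs => rw [← b.linearCombination_repr E]
  rw [Finsupp.linearCombination_apply, Finsupp.sum, Finset.mul_sum, map_sum,
    Finsupp.finsetSum_apply]
  refine Finset.sum_congr rfl fun l _ => ?_
  rw [mul_smul_comm, map_smul, Finsupp.smul_apply, smul_eq_mul]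

theorem ev_X (c : ℕ → K) (j : ℕ) : ev c (X j) = c j := by
  rw [ev, aeval_X]

theorem ev_C (c : ℕ → K) (a : K) : ev c (C a) = a := by
  rw [ev, aeval_C]; rfl

/-- the coefficient of `X 0 * b μ` at `ν` -/
theorem coef_eq {q t : K} {b : Module.Basis Par K (Sy K)} (hE : IsE q t b) {I : Par → Sy K}
    (hI : ∀ μ ν, b.repr (I μ - b μ) ν ≠ 0 → card ν < card μ)
    (hc : ∀ μ ν, ev (pt q t ν) (I μ) ≠ 0 → μ ≤ ν)
    (hd : ∀ μ, ev (pt q t μ) (I μ) ≠ 0) (μ ν : Par) (hν : card ν = card μ + 1) :
    b.repr (X 0 * b μ) ν * ev (pt q t ν) (I ν)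
      = (pt q t ν 0 - pt q t μ 0) * ev (pt q t ν) (I μ) := by
  classical
  set c : Par →₀ K := b.repr (X 0 * b μ) with hcdef
  have hWX : ∀ l, WH (card l + 1) (X 0 * b l : Sy K) := by
    intro l
    have := WH_mul (WH_X (K := K) 0) (hE.hom l)
    rw [show 0 + 1 + card l = card l + 1 by ring] at this
    exact this
  have hc0 : ∀ κ, card κ ≠ card μ + 1 → c κ = 0 := fun κ hκ => hE.repr_zero (hWX μ) hκ
  have hreprI : ∀ l κ, card l ≤ card κ → b.repr (I l) κ = if l = κ then 1 else 0 := by
    intro l κ hlk
    have h2 : b.repr (I l - b l) κ = 0 := by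
      by_contra h
      have := hI l κ h
      omega
    rw [map_sub, Finsupp.sub_apply, b.repr_self, sub_eq_zero] at h2
    rw [h2, Finsupp.single_apply]
  set G : Sy K := X 0 * I μ - C (pt q t μ 0) * I μ - c.sum (fun κ a => a • I κ) with hG
  have hG0 : G = 0 := by
    refine eq_zero_of_vanish hI hc hd (card μ + 1) G ?_ ?_
    · intro κ hκ
      by_contra hcon
      apply hκ
      have hκ1 : card μ + 1 ≤ card κ := by omega
      have e0 : b.repr (X 0 * (I μ - b μ)) κ = 0 := by
        rw [repr_X_mul]
        refine Finset.sum_eq_zero fun l hl => ?_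
        have h3 := hI μ l (Finsupp.mem_support_iff.1 hl)
        rw [hE.repr_zero (hWX l) (by omega), mul_zero]
      have e1 : b.repr (X 0 * I μ) κ = c κ := by
        have : (X 0 * I μ : Sy K) = X 0 * b μ + X 0 * (I μ - b μ) := by ring
        rw [this, map_add, Finsupp.add_apply, e0, add_zero]
      have e2 : b.repr (C (pt q t μ 0) * I μ) κ = 0 := by
        rw [← smul_eq_C_mul, map_smul, Finsupp.smul_apply, hreprI μ κ (by omega), if_neg,
          smul_zero]
        rintro rfl
        omega
      have e3 : b.repr (c.sum (fun κ a => a • I κ)) κ = c κ := by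
        rw [Finsupp.sum, map_sum, Finsupp.finsetSum_apply]
        have h1 : ∀ l ∈ c.support, b.repr (c l • I l) κ = if l = κ then c l else 0 := by
          intro l hl
          have hl1 : card l = card μ + 1 := by
            by_contra h
            exact (Finsupp.mem_support_iff.1 hl) (hc0 l h)
          rw [map_smul, Finsupp.smul_apply, hreprI l κ (by omega), smul_eq_mul, mul_ite, mul_one,
            mul_zero]
        rw [Finset.sum_congr rfl h1, Finset.sum_ite_eq']
        split_ifs with h
        · rfl
        · rw [Finsupp.notMem_support_iff] at h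
          exact h.symm
      rw [hG, map_sub, map_sub, Finsupp.sub_apply, Finsupp.sub_apply, e1, e2, e3]
      ring
    · intro κ hκ
      have e1 : ev (pt q t κ) (X 0 * I μ - C (pt q t μ 0) * I μ) = 0 := by
        rw [map_sub, map_mul, map_mul, ev_X, ev_C, ← sub_mul]
        by_cases h : ev (pt q t κ) (I μ) = 0
        · rw [h, mul_zero]
        · have h1 := hc μ κ h
          have h2 : μ = κ := eq_of_le_card h1 (by omega)
          subst h2
          rw [sub_self, zero_mul]
      have e2 : ev (pt q t κ) (c.sum (fun κ a => a • I κ)) = 0 := by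
        rw [Finsupp.sum, map_sum]
        refine Finset.sum_eq_zero fun l hl => ?_
        have hl1 : card l = card μ + 1 := by
          by_contra h
          exact (Finsupp.mem_support_iff.1 hl) (hc0 l h)
        have h3 : ev (pt q t κ) (I l) = 0 := by
          by_contra h
          have := card_mono (hc l κ h)
          omega
        rw [map_smul, h3, smul_zero]
      rw [hG, map_sub, e1, e2, sub_zero]
  have h1 := congrArg (ev (pt q t ν)) hG0
  rw [hG, map_zero, map_sub, map_sub, map_mul, map_mul, ev_X, ev_C] at h1
  have h2 : ev (pt q t ν) (c.sum (fun κ a => a • I κ)) = c ν * ev (pt q t ν) (I ν) := by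
    rw [Finsupp.sum, map_sum]
    by_cases hs : ν ∈ c.support
    · rw [Finset.sum_eq_single_of_mem ν hs, map_smul, smul_eq_mul]
      intro l hl hlν
      have hl1 : card l = card μ + 1 := by
        by_contra h
        exact (Finsupp.mem_support_iff.1 hl) (hc0 l h)
      have h3 : ev (pt q t ν) (I l) = 0 := by
        by_contra h
        exact hlν (eq_of_le_card (hc l ν h) (by omega))
      rw [map_smul, h3, smul_zero]
    · rw [Finsupp.notMem_support_iff.1 hs, zero_mul]
      refine Finset.sum_eq_zero fun l hl => ?_
      have hl1 : card l = card μ + 1 := by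
        by_contra h
        exact (Finsupp.mem_support_iff.1 hl) (hc0 l h)
      have h3 : ev (pt q t ν) (I l) = 0 := by
        by_contra h
        have h4 := eq_of_le_card (hc l ν h) (by omega)
        rw [h4] at hl
        exact hs hl
      rw [map_smul, h3, smul_zero]
  rw [h2] at h1
  linear_combination -h1

end

theorem st_P1 (K : Type*) [Field K] [CharZero K] (h1 : ST_II K) (h2 : ST_INT K) : ST_P1 K := by
  classical
  intro q t hG b hE
  obtain ⟨I, hA, hI, hc, hd⟩ := h1 q t hG b hE
  refine ⟨fun μ => ev (pt q t μ) (I μ), hd, ?_, ?_⟩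
  · have h3 : I P0 = b P0 := by
      rw [← sub_eq_zero]
      apply b.repr.injective
      ext ν
      rw [map_zero, Finsupp.zero_apply]
      by_contra h
      have := hI P0 ν h
      rw [card_P0] at this
      omega
    change ev (pt q t P0) (I P0) = 1
    rw [h3, hE.b_P0, map_one]
  · intro μ N hN
    have hWX : WH (card μ + 1) (X 0 * b μ : Sy K) := by
      have := WH_mul (WH_X (K := K) 0) (hE.hom μ)
      rw [show 0 + 1 + card μ = card μ + 1 by ring] at this
      exact this
    have hM := hG.Mj_ne 0
    -- the coefficients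
    have hcoef : ∀ i ∈ ads μ, b.repr (X 0 * b μ) (up μ i) =
        -(rho q t N (up μ i) i) / (q * t * zc q t μ i ^ 2) *
          (ev (pt q t μ) (I μ) / ev (pt q t (up μ i)) (I (up μ i))) := by
      intro i hi
      have hAi := mem_ads.1 hi
      have hcu := card_up hAi
      have e1 := coef_eq hE hI hc hd μ (up μ i) hcu
      have e2 := h2 q t hG (up μ i) N (by omega) (I μ)
      have e3 : ∑ j ∈ rms (up μ i), rho q t N (up μ i) j * ev (pt q t (dn (up μ i) j)) (I μ) =
          rho q t N (up μ i) i * ev (pt q t μ) (I μ) := by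
        rw [Finset.sum_eq_single_of_mem i (mem_rms.2 (rmb_up hAi)), dn_up hAi]
        intro j hj hji
        have hRj := mem_rms.1 hj
        have h4 : ev (pt q t (dn (up μ i) j)) (I μ) = 0 := by
          by_contra h
          have h5 := hc _ _ h
          have h6 := card_dn hRj
          have h7 : μ = dn (up μ i) j := eq_of_le_card h5 (by omega)
          have h8 : (dn (up μ i) j).1 j = (up μ i).1 j - 1 := dn_apply_same hRj
          rw [← h7, up_apply_ne hAi hji] at h8
          have h9 : 0 < (up μ i).1 j := hRj.1
          rw [up_apply_ne hAi hji] at h9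
          omega
        rw [h4, mul_zero]
      rw [e3] at e2
      have e4 := congrArg (ev (pt q t (up μ i))) (hA μ)
      rw [map_add, map_smul, map_smul, smul_eq_mul, smul_eq_mul] at e4
      have e5 : Ps q t (up μ i) 0 = Ps q t μ 0 + zc q t μ i := by
        rw [Ps_up q t hAi 0, zero_add, pow_one]
      have e6 : pt q t (up μ i) 0 - pt q t μ 0 = -(Mj q t 0) / (q * t * zc q t μ i) := by
        have hz := hG.zc_ne μ i
        have hq := hG.q0
        have ht := hG.t0
        have h7 : Ps q⁻¹ t⁻¹ (up μ i) 0 = Ps q⁻¹ t⁻¹ μ 0 + zc q⁻¹ t⁻¹ μ i := by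
          rw [Ps_up q⁻¹ t⁻¹ hAi 0, zero_add, pow_one]
        have h8 : zc q⁻¹ t⁻¹ μ i = (zc q t μ i)⁻¹ := by
          rw [zc, zc, mul_inv, inv_pow, inv_pow]
        simp only [pt, Mj, zero_add, pow_one]
        rw [h7, h8]
        field_simp
        ring
      have hz := hG.zc_ne μ i
      have hq := hG.q0
      have ht := hG.t0
      have hb := hd (up μ i)
      rw [e6] at e1
      -- `M z I_mu(nu) = rho beta_mu`
      have e7 : Mj q t 0 * zc q t μ i * ev (pt q t (up μ i)) (I μ) =
          rho q t N (up μ i) i * ev (pt q t μ) (I μ) := by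
        rw [e5] at e2
        linear_combination e2 - e4
      set x := ev (pt q t (up μ i)) (I μ)
      set r := rho q t N (up μ i) i
      set y := ev (pt q t μ) (I μ)
      set w := ev (pt q t (up μ i)) (I (up μ i))
      set c := b.repr (X 0 * b μ) (up μ i)
      set z := zc q t μ i
      have e8 : x = r * y / (Mj q t 0 * z) := by
        rw [eq_div_iff (mul_ne_zero hM hz)]
        linear_combination e7
      rw [e8] at e1
      have e9 : c = -(Mj q t 0) / (q * t * z) * (r * y / (Mj q t 0 * z)) / w := by
        rw [eq_div_iff hb]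
        exact e1
      rw [e9]
      field_simp
    have hzero : ∀ ν, ν ∉ (ads μ).image (up μ) → b.repr (X 0 * b μ) ν = 0 := by
      intro ν hν
      by_cases hcard : card ν = card μ + 1
      · have e1 := coef_eq hE hI hc hd μ ν hcard
        have h4 : ev (pt q t ν) (I μ) = 0 := by
          by_contra h
          obtain ⟨i, hi, rfl⟩ := exists_ads_of_card (hc _ _ h) hcard
          exact hν (Finset.mem_image_of_mem _ hi)
        rw [h4, mul_zero] at e1
        exact (mul_eq_zero.1 e1).resolve_right (hd ν)
      · exact hE.repr_zero hWX hcard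
    have hinj : Set.InjOn (up μ) (ads μ : Set ℕ) := by
      intro i hi j hj hij
      by_contra hne
      have hAi := mem_ads.1 hi
      have hAj := mem_ads.1 hj
      have h3 := up_apply_same hAi
      rw [hij, up_apply_ne hAj hne] at h3
      omega
    have hsub : (b.repr (X 0 * b μ)).support ⊆ (ads μ).image (up μ) := by
      intro ν hν
      by_contra h
      exact (Finsupp.mem_support_iff.1 hν) (hzero ν h)
    conv_lhs => rw [← b.linearCombination_repr (X 0 * b μ)]
    rw [Finsupp.linearCombination_apply, Finsupp.sum, Finset.sum_subset hsub (fun ν _ hν => by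
      rw [Finsupp.notMem_support_iff.1 hν, zero_smul]), Finset.sum_image hinj]
    refine Finset.sum_congr rfl fun i hi => ?_
    rw [hcoef i hi]

end TH20
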